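import Mathlib

/-!
The unit cube in Euclidean space and coverings of its neighbourhoods by congruent copies.
-/

set_option autoImplicit false

namespace Pool.Agent.Newton

/-- The closed unit cube `[0, 1]^d`. -/
def cube (d : ℕ) : Set (EuclideanSpace ℝ (Fin d)) := {x | ∀ i, 0 ≤ x i ∧ x i ≤ 1}

/-- There are `n` congruent copies of the unit cube (images under isometries of the whole space)
whose union contains an open set containing the unit cube. -/
def Covers (d n : ℕ) : Prop :=
  ∃ g : Fin n → (EuclideanSpace ℝ (Fin d) ≃ᵢ EuclideanSpace ℝ (Fin d)),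
    ∃ U : Set (EuclideanSpace ℝ (Fin d)), IsOpen U ∧ cube d ⊆ U ∧ U ⊆ ⋃ j, g j '' cube d

/-- The Newton covering number of the `d`-dimensional unit cube. -/
noncomputable def newton (d : ℕ) : ℕ := sInf {n | Covers d n}

end Pool.Agent.Newton
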