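import Mathlib

/-!
# The key inequality for the lower bound on the Newton covering number of the cube
-/

set_option autoImplicit false

namespace Pool.Agent.Newton

open Finset

theorem termBound (A t a b κ : ℝ) (hA0 : 0 ≤ A) (ht : 0 ≤ t) (ha : 0 ≤ a) (hb : 0 ≤ b)
    (ha1 : a < 1) (hκ1 : κ < 1) (hA : a * t ≤ A) (hXk : A + b * t ≤ 1)
    (h4 : 1 - (A - a * t) ^ 2 ≤ κ - a ^ 2) :
    ((a + b) * t) ^ 2 ≤ (1 - a) / (1 + a) * (1 - (A - a * t) ^ 2) := by
  have hbt : 0 ≤ b * t := mul_nonneg hb ht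
  have hat : 0 ≤ a * t := mul_nonneg ha ht
  obtain ⟨v, hv⟩ : ∃ v, v = 1 - (A - a * t) := ⟨_, rfl⟩
  have hv0 : 0 ≤ v := by linarith
  have hv1 : v ≤ 1 := by linarith
  have hD : (a + b) * t ≤ v := by
    have : (a + b) * t = a * t + b * t := by ring
    linarith
  have h5 : 1 - (A - a * t) ^ 2 = 2 * v - v ^ 2 := by rw [hv]; ring
  have hva : v ≤ 1 - a := by
    rw [h5] at h4
    by_contra hcon
    push Not at hcon
    have h6 : (1 - v) ^ 2 ≤ a ^ 2 := pow_le_pow_left₀ (by linarith) (by linarith) 2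
    have h7 : (1 - v) ^ 2 = 1 - (2 * v - v ^ 2) := by ring
    linarith
  rw [h5]
  have h6 : ((a + b) * t) ^ 2 ≤ v ^ 2 := by
    apply pow_le_pow_left₀ _ hD
    exact mul_nonneg (add_nonneg ha hb) ht
  refine h6.trans ?_
  rw [div_mul_eq_mul_div, le_div_iff₀ (by linarith)]
  have h7 : 0 ≤ v * (1 - a - v) := mul_nonneg hv0 (by linarith)
  have h8 : (1 - a) * (2 * v - v ^ 2) - v ^ 2 * (1 + a) = 2 * (v * (1 - a - v)) := by ring
  linarith

theorem oneSided {d : ℕ} (hd : 2 ≤ d) (α z : Fin d → ℝ) (s a b : ℝ) (hs : 1 < s) (ha : 0 ≤ a)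
    (hb : 0 ≤ b) (hα : ∑ k, α k ^ 2 = (d - 1) * s ^ 2) (hz : ∑ k, z k ^ 2 = 1)
    (hαz : ∑ k, α k * z k = 0) (h0 : ∀ k, |α k| ≤ 1) (hX : ∀ k, |α k + b * z k| ≤ 1)
    (hY : ∀ k, |α k - a * z k| ≤ 1) :
    ∑ k ∈ univ.filter (fun k => 0 ≤ α k * z k), ((a + b) * z k) ^ 2 < (1 - a) ^ 2 := by
  have hd' : (2 : ℝ) ≤ d := by exact_mod_cast hd
  set κ : ℝ := d - (d - 1) * s ^ 2 with hκ
  have hκ1 : κ < 1 := by
    have : (1 : ℝ) < s ^ 2 := by nlinarith
    nlinarith
  -- total deficit of `Y`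
  have hYsum : ∑ k, (1 - (α k - a * z k) ^ 2) = κ - a ^ 2 := by
    have e : ∀ k, 1 - (α k - a * z k) ^ 2 =
        1 - α k ^ 2 + 2 * a * (α k * z k) - a ^ 2 * z k ^ 2 := fun k => by ring
    simp_rw [e]
    rw [sum_sub_distrib, sum_add_distrib, sum_sub_distrib, ← mul_sum, ← mul_sum, hα, hz, hαz]
    simp [hκ]
  have hαsum : ∑ k, (1 - α k ^ 2) = κ := by
    rw [sum_sub_distrib, hα]
    simp [hκ]
  have hYnn : ∀ k, 0 ≤ 1 - (α k - a * z k) ^ 2 := by
    intro k
    have := abs_le.mp (hY k)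
    nlinarith
  have hαnn : ∀ k, 0 ≤ 1 - α k ^ 2 := by
    intro k
    have := abs_le.mp (h0 k)
    nlinarith
  have ha1 : a < 1 := by
    have h1 : 0 ≤ κ - a ^ 2 := by rw [← hYsum]; exact sum_nonneg fun k _ => hYnn k
    nlinarith
  -- Step A
  have stepA : ∀ k, 0 ≤ α k * z k → a * |z k| ≤ |α k| := by
    intro k hk
    by_contra hcon
    push Not at hcon
    -- a * |α k| * |z k| ≤ (κ - 1 + α k ^ 2) / 2
    have h1 : a * (|α k| * |z k|) ≤ (κ - (1 - α k ^ 2)) / 2 := by
      have e1 : |α k| * |z k| ≤ ∑ l ∈ univ.filter (fun l => 0 ≤ α l * z l), α l * z l := by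
        rw [← abs_mul, abs_of_nonneg hk]
        exact single_le_sum (f := fun l => α l * z l) (fun l hl => (mem_filter.mp hl).2)
          (mem_filter.mpr ⟨mem_univ k, hk⟩)
      have e2 : ∑ l ∈ univ.filter (fun l => 0 ≤ α l * z l), α l * z l =
          ∑ l ∈ univ.filter (fun l => ¬ 0 ≤ α l * z l), -(α l * z l) := by
        have := sum_filter_add_sum_filter_not univ (fun l => 0 ≤ α l * z l) (fun l => α l * z l)
        rw [hαz] at this
        rw [sum_neg_distrib]
        linarith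
      have e3 : a * ∑ l ∈ univ.filter (fun l => ¬ 0 ≤ α l * z l), -(α l * z l) ≤
          ∑ l ∈ univ.filter (fun l => ¬ 0 ≤ α l * z l), (1 - α l ^ 2) / 2 := by
        rw [mul_sum]
        apply sum_le_sum
        intro l hl
        have hl' : α l * z l < 0 := by
          have := (mem_filter.mp hl).2
          linarith
        -- |α l - a z l| = |α l| + a |z l| ≤ 1
        have h2 := hY l
        have h3 : |α l - a * z l| = |α l| + a * |z l| := by
          rcases lt_or_ge (α l) 0 with h | h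
          · have hzl : 0 < z l := by
              by_contra hh
              push Not at hh
              nlinarith
            rw [abs_of_nonpos (by nlinarith), abs_of_neg h, abs_of_pos hzl]; ring
          · have hzl : z l < 0 := by
              by_contra hh
              push Not at hh
              nlinarith
            rw [abs_of_nonneg (by nlinarith), abs_of_nonneg h, abs_of_neg hzl]; ring
        rw [h3] at h2
        have h4 : -(α l * z l) = |α l| * |z l| := by rw [← abs_mul, abs_of_neg hl']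
        rw [h4]
        have h5 : α l ^ 2 = |α l| ^ 2 := (sq_abs _).symm
        rw [h5]
        have h6 : 0 ≤ |α l| := abs_nonneg _
        nlinarith [mul_le_mul_of_nonneg_left h2 h6, sq_nonneg (1 - |α l|)]
      have e4 : ∑ l ∈ univ.filter (fun l => ¬ 0 ≤ α l * z l), (1 - α l ^ 2) / 2 ≤
          (κ - (1 - α k ^ 2)) / 2 := by
        have e5 : ∑ l ∈ univ.filter (fun l => ¬ 0 ≤ α l * z l), (1 - α l ^ 2) / 2 ≤
            ∑ l ∈ univ.erase k, (1 - α l ^ 2) / 2 := by
          apply sum_le_sum_of_subset_of_nonneg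
          · intro l hl
            rw [mem_erase]
            refine ⟨?_, mem_univ _⟩
            rintro rfl
            exact (mem_filter.mp hl).2 hk
          · intro l _ _
            have := hαnn l
            linarith
        have e6 := add_sum_erase univ (fun l => 1 - α l ^ 2) (mem_univ k)
        rw [hαsum] at e6
        have e7 : ∑ l ∈ univ.erase k, (1 - α l ^ 2) / 2 = (∑ l ∈ univ.erase k, (1 - α l ^ 2)) / 2 :=
          (sum_div _ _ _).symm
        rw [e7] at e5
        refine e5.trans ?_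
        linarith
      calc a * (|α k| * |z k|) ≤ a * ∑ l ∈ univ.filter (fun l => 0 ≤ α l * z l), α l * z l :=
            mul_le_mul_of_nonneg_left e1 ha
        _ = a * ∑ l ∈ univ.filter (fun l => ¬ 0 ≤ α l * z l), -(α l * z l) := by rw [e2]
        _ ≤ _ := e3.trans e4
    have h2 : α k ^ 2 = |α k| ^ 2 := (sq_abs _).symm
    rw [h2] at h1
    have h3 : 0 ≤ |α k| := abs_nonneg _
    nlinarith [mul_le_mul_of_nonneg_left hcon.le h3]
  -- Step B
  set P := univ.filter (fun k => 0 ≤ α k * z k) with hP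
  have hPsum : ∑ k ∈ P, (1 - (α k - a * z k) ^ 2) ≤ κ - a ^ 2 := by
    rw [← hYsum]
    exact sum_le_sum_of_subset_of_nonneg (subset_univ _) fun k _ _ => hYnn k
  have hterm : ∀ k ∈ P, ((a + b) * z k) ^ 2 ≤ (1 - a) / (1 + a) * (1 - (α k - a * z k) ^ 2) := by
    intro k hk
    have hk' : 0 ≤ α k * z k := (mem_filter.mp hk).2
    have hA := stepA k hk'
    -- absolute values
    have h1 : |α k + b * z k| = |α k| + b * |z k| := by
      rcases lt_trichotomy (α k) 0 with h | h | h
      · have hzk : z k ≤ 0 := by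
          by_contra hh
          push Not at hh
          nlinarith
        rw [abs_of_nonpos (by nlinarith), abs_of_neg h, abs_of_nonpos hzk]; ring
      · rw [h]; simp [abs_mul, abs_of_nonneg hb]
      · have hzk : 0 ≤ z k := by
          by_contra hh
          push Not at hh
          nlinarith
        rw [abs_of_nonneg (by nlinarith), abs_of_pos h, abs_of_nonneg hzk]
    have h2 : (α k - a * z k) ^ 2 = (|α k| - a * |z k|) ^ 2 := by
      have e1 : α k * z k = |α k| * |z k| := by rw [← abs_mul, abs_of_nonneg hk']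
      have e2 : α k ^ 2 = |α k| ^ 2 := (sq_abs _).symm
      have e3 : z k ^ 2 = |z k| ^ 2 := (sq_abs _).symm
      calc (α k - a * z k) ^ 2 = α k ^ 2 - 2 * a * (α k * z k) + a ^ 2 * z k ^ 2 := by ring
        _ = |α k| ^ 2 - 2 * a * (|α k| * |z k|) + a ^ 2 * |z k| ^ 2 := by rw [e1, e2, e3]
        _ = _ := by ring
    have h3 : ((a + b) * z k) ^ 2 = ((a + b) * |z k|) ^ 2 := by
      rw [mul_pow, mul_pow, sq_abs]
    rw [h2, h3]
    have hXk := hX k
    rw [h1] at hXk
    have h4 : 1 - (α k - a * z k) ^ 2 ≤ κ - a ^ 2 :=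
      (single_le_sum (f := fun k => 1 - (α k - a * z k) ^ 2) (fun l _ => hYnn l) hk).trans hPsum
    rw [h2] at h4
    exact termBound _ _ a b κ (abs_nonneg _) (abs_nonneg _) ha hb ha1 hκ1 hA hXk h4
  calc ∑ k ∈ P, ((a + b) * z k) ^ 2 ≤ ∑ k ∈ P, (1 - a) / (1 + a) * (1 - (α k - a * z k) ^ 2) :=
        sum_le_sum hterm
    _ = (1 - a) / (1 + a) * ∑ k ∈ P, (1 - (α k - a * z k) ^ 2) := by rw [mul_sum]
    _ ≤ (1 - a) / (1 + a) * (κ - a ^ 2) :=
        mul_le_mul_of_nonneg_left hPsum (div_nonneg (by linarith) (by linarith))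
    _ < (1 - a) / (1 + a) * (1 - a ^ 2) :=
        mul_lt_mul_of_pos_left (by linarith) (div_pos (by linarith) (by linarith))
    _ = (1 - a) ^ 2 := by
        field_simp
        ring

theorem twoSided {d : ℕ} (hd : 2 ≤ d) (α z : Fin d → ℝ) (s a b : ℝ) (hs : 1 < s) (ha : 0 ≤ a)
    (hb : 0 ≤ b) (hα : ∑ k, α k ^ 2 = (d - 1) * s ^ 2) (hz : ∑ k, z k ^ 2 = 1)
    (hαz : ∑ k, α k * z k = 0) (h0 : ∀ k, |α k| ≤ 1) (hX : ∀ k, |α k + b * z k| ≤ 1)
    (hY : ∀ k, |α k - a * z k| ≤ 1) : a + b + a * b < 1 := by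
  have h1 := oneSided hd α z s a b hs ha hb hα hz hαz h0 hX hY
  have h2 := oneSided hd α (fun k => -z k) s b a hs hb ha hα (by simpa using hz)
    (by simpa using hαz) h0 (fun k => by simpa [sub_eq_add_neg] using hY k)
    (fun k => by simpa [sub_eq_add_neg] using hX k)
  have h3 : ∑ k, ((a + b) * z k) ^ 2 = (a + b) ^ 2 := by
    simp_rw [mul_pow]
    rw [← mul_sum, hz, mul_one]
  have h4 := sum_filter_add_sum_filter_not univ (fun k => 0 ≤ α k * z k)
    (fun k => ((a + b) * z k) ^ 2)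
  have h5 : ∑ k ∈ univ.filter (fun k => ¬ 0 ≤ α k * z k), ((a + b) * z k) ^ 2 ≤
      ∑ k ∈ univ.filter (fun k => 0 ≤ α k * -z k), ((b + a) * -z k) ^ 2 := by
    calc ∑ k ∈ univ.filter (fun k => ¬ 0 ≤ α k * z k), ((a + b) * z k) ^ 2
        = ∑ k ∈ univ.filter (fun k => ¬ 0 ≤ α k * z k), ((b + a) * -z k) ^ 2 := by
          apply sum_congr rfl; intro k _; ring
      _ ≤ _ := by
          apply sum_le_sum_of_subset_of_nonneg
          · intro k hk
            rw [mem_filter] at hk ⊢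
            refine ⟨mem_univ _, ?_⟩
            have := hk.2
            push Not at this
            linarith
          · intro k _ _
            positivity
  rw [h3] at h4
  have h6 : (a + b) ^ 2 < (1 - a) ^ 2 + (1 - b) ^ 2 := by linarith
  nlinarith

end Pool.Agent.Newton
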