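import Pool.Agent.Lib_helper88.Newton.Defs

/-!
Upper bound: `d + 1` congruent copies suffice.
-/

set_option autoImplicit false

namespace Pool.Agent.Newton

open Finset

/-- the coordinate formula of the plane reflection -/
noncomputable def rotFun {d : ℕ} (i j : Fin d) (c t : ℝ) (x : EuclideanSpace ℝ (Fin d)) :
    EuclideanSpace ℝ (Fin d) :=
  WithLp.toLp 2 fun k => if k = i then c * x i + t * x j else if k = j then t * x i - c * x j else x k

theorem rotFun_i {d : ℕ} (i j : Fin d) (c t : ℝ) (x : EuclideanSpace ℝ (Fin d)) :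
    rotFun i j c t x i = c * x i + t * x j := by simp [rotFun]

theorem rotFun_j {d : ℕ} {i j : Fin d} (hij : i ≠ j) (c t : ℝ) (x : EuclideanSpace ℝ (Fin d)) :
    rotFun i j c t x j = t * x i - c * x j := by simp [rotFun, hij.symm]

theorem rotFun_k {d : ℕ} {i j k : Fin d} (hi : k ≠ i) (hj : k ≠ j) (c t : ℝ)
    (x : EuclideanSpace ℝ (Fin d)) : rotFun i j c t x k = x k := by simp [rotFun, hi, hj]

theorem rotFun_rotFun {d : ℕ} {i j : Fin d} (hij : i ≠ j) {c t : ℝ} (h : c ^ 2 + t ^ 2 = 1)
    (x : EuclideanSpace ℝ (Fin d)) : rotFun i j c t (rotFun i j c t x) = x := by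
  ext k
  by_cases hki : k = i
  · subst hki
    rw [rotFun_i, rotFun_i, rotFun_j hij]
    linear_combination (x k) * h
  · by_cases hkj : k = j
    · subst hkj
      rw [rotFun_j hij, rotFun_i, rotFun_j hij]
      linear_combination (x k) * h
    · rw [rotFun_k hki hkj, rotFun_k hki hkj]

theorem isometry_rotFun {d : ℕ} {i j : Fin d} (hij : i ≠ j) {c t : ℝ} (h : c ^ 2 + t ^ 2 = 1) :
    Isometry (rotFun i j c t) := by
  apply Isometry.of_dist_eq
  intro x y
  rw [EuclideanSpace.dist_eq, EuclideanSpace.dist_eq]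
  congr 1
  have hj : j ∈ univ.erase i := by simp [hij.symm]
  rw [← add_sum_erase _ _ (mem_univ i), ← add_sum_erase _ _ hj,
    ← add_sum_erase univ (fun k => dist (x k) (y k) ^ 2) (mem_univ i), ← add_sum_erase _ _ hj]
  rw [← add_assoc, ← add_assoc]
  congr 1
  · simp only [Real.dist_eq, sq_abs]
    rw [rotFun_i, rotFun_i, rotFun_j hij, rotFun_j hij]
    linear_combination ((x i - y i) ^ 2 + (x j - y j) ^ 2) * h
  · apply sum_congr rfl
    intro k hk
    rw [mem_erase, mem_erase] at hk
    rw [rotFun_k hk.2.1 hk.1, rotFun_k hk.2.1 hk.1]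

/-- the plane reflection as an isometry of space -/
noncomputable def rot {d : ℕ} {i j : Fin d} (hij : i ≠ j) {c t : ℝ} (h : c ^ 2 + t ^ 2 = 1) :
    EuclideanSpace ℝ (Fin d) ≃ᵢ EuclideanSpace ℝ (Fin d) :=
  IsometryEquiv.mk' (rotFun i j c t) (rotFun i j c t) (rotFun_rotFun hij h) (isometry_rotFun hij h)

theorem rot_apply {d : ℕ} {i j : Fin d} (hij : i ≠ j) {c t : ℝ} (h : c ^ 2 + t ^ 2 = 1)
    (x : EuclideanSpace ℝ (Fin d)) : rot hij h x = rotFun i j c t x := rfl

/-- A thin box slightly larger than the unit cube in all directions but `j` fits in the cube. -/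
theorem fit {d : ℕ} (j : Fin d) (S : Finset (Fin d)) (hS : j ∉ S) :
    ∃ s δ : ℝ, 1 < s ∧ 0 < δ ∧ δ ≤ 1 ∧ ∃ φ : EuclideanSpace ℝ (Fin d) ≃ᵢ EuclideanSpace ℝ (Fin d),
      ∀ x, (∀ i ∈ S, |x i| ≤ s / 2) → (∀ i, i ∉ S → i ≠ j → |x i| ≤ 1 / 2) → |x j| ≤ δ / 2 →
        ∀ i, |φ x i| ≤ 1 / 2 := by
  induction S using Finset.induction_on with
  | empty =>
    refine ⟨2, 1, by norm_num, by norm_num, le_rfl, IsometryEquiv.refl _, ?_⟩
    intro x _ h2 h3 i
    by_cases hi : i = j
    · rw [hi]; exact h3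
    · exact h2 i (by simp) hi
  | insert i S hi ih =>
    rw [mem_insert, not_or] at hS
    obtain ⟨hji, hjS⟩ := hS
    obtain ⟨s, δ, hs, hδ, hδ1, φ, hφ⟩ := ih hjS
    -- the angle
    set t : ℝ := δ / 2 with ht
    set c : ℝ := √(1 - δ ^ 2 / 4) with hc
    have hc2 : c ^ 2 = 1 - δ ^ 2 / 4 := by
      rw [hc]; exact Real.sq_sqrt (by nlinarith)
    have hct : c ^ 2 + t ^ 2 = 1 := by rw [hc2, ht]; ring
    have hc0 : 0 ≤ c := Real.sqrt_nonneg _
    have hc1 : c < 1 := by nlinarith
    set ε : ℝ := min ((1 - c) / 2) (δ / 4) with hε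
    have hε0 : 0 < ε := by
      rw [hε]; apply lt_min <;> linarith
    have hε1 : ε ≤ (1 - c) / 2 := min_le_left _ _
    have hε2 : ε ≤ δ / 4 := min_le_right _ _
    refine ⟨min s (1 + ε), ε, lt_min hs (by linarith), hε0, by linarith,
      (rot (Ne.symm hji) hct).trans φ, ?_⟩
    intro x h1 h2 h3 k
    rw [IsometryEquiv.trans_apply]
    have hxi : |x i| ≤ (1 + ε) / 2 := by
      have := h1 i (mem_insert_self _ _)
      have h4 : min s (1 + ε) ≤ 1 + ε := min_le_right _ _
      linarith
    have hxi' := abs_le.mp hxi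
    have hxj' := abs_le.mp h3
    apply hφ
    · intro l hl
      have hli : l ≠ i := by rintro rfl; exact hi hl
      have hlj : l ≠ j := by rintro rfl; exact hjS hl
      rw [rot_apply, rotFun_k hli hlj]
      have := h1 l (mem_insert_of_mem hl)
      have h4 : min s (1 + ε) ≤ s := min_le_left _ _
      linarith
    · intro l hl hlj
      rw [rot_apply]
      by_cases hli : l = i
      · subst hli
        rw [rotFun_i, abs_le]
        -- |c x_i + t x_j| ≤ c (1+ε)/2 + t ε/2 ≤ 1/2
        have h5 : c * ((1 + ε) / 2) + t * (ε / 2) ≤ 1 / 2 := by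
          have h6 : c * ε ≤ ε := by nlinarith
          have h7 : t * ε ≤ ε / 2 := by nlinarith
          nlinarith
        constructor
        · nlinarith [mul_le_mul_of_nonneg_left hxi'.1 hc0,
            mul_le_mul_of_nonneg_left hxj'.1 (by positivity : 0 ≤ t)]
        · nlinarith [mul_le_mul_of_nonneg_left hxi'.2 hc0,
            mul_le_mul_of_nonneg_left hxj'.2 (by positivity : 0 ≤ t)]
      · rw [rotFun_k hli hlj]
        apply h2 l _ hlj
        rw [mem_insert, not_or]
        exact ⟨hli, hl⟩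
    · rw [rot_apply, rotFun_j (Ne.symm hji), abs_le]
      have h5 : t * ((1 + ε) / 2) + c * (ε / 2) ≤ δ / 2 := by
        have h6 : c * ε ≤ ε := by nlinarith
        have h7 : t * ε ≤ ε / 2 := by nlinarith
        nlinarith
      constructor
      · nlinarith [mul_le_mul_of_nonneg_left hxi'.1 (by positivity : 0 ≤ t),
          mul_le_mul_of_nonneg_left hxj'.2 hc0]
      · nlinarith [mul_le_mul_of_nonneg_left hxi'.2 (by positivity : 0 ≤ t),
          mul_le_mul_of_nonneg_left hxj'.1 hc0]

/-- `d + 1` congruent copies suffice. -/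
theorem covers_succ (d : ℕ) : Covers d (d + 1) := by
  have key := fun j : Fin d => fit j (univ.erase j) (notMem_erase j univ)
  choose s δ hs hδ hδ1 φ hφ using key
  obtain ⟨e, he, he1⟩ : ∃ e : ℝ, 0 < e ∧ ∀ j, e ≤ min ((s j - 1) / 2) (δ j / 2) := by
    have hpos : ∀ j, 0 < min ((s j - 1) / 2) (δ j / 2) := fun j =>
      lt_min (by have := hs j; linarith) (by have := hδ j; linarith)
    rcases isEmpty_or_nonempty (Fin d) with h | h
    · exact ⟨1, one_pos, fun j => h.elim j⟩
    · obtain ⟨j0, hj0⟩ := Finite.exists_min fun j => min ((s j - 1) / 2) (δ j / 2)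
      exact ⟨_, hpos j0, hj0⟩
  set one : EuclideanSpace ℝ (Fin d) := WithLp.toLp 2 fun _ => (1 : ℝ) with hone
  have hone' : ∀ i, one i = 1 := fun i => by simp [hone]
  set cen : Fin d → EuclideanSpace ℝ (Fin d) := fun i => WithLp.toLp 2 fun k =>
    if k = i then (1 : ℝ) else 1 / 2 with hcen
  have hcen1 : ∀ i, cen i i = 1 := fun i => by simp [hcen]
  have hcen2 : ∀ i k, k ≠ i → cen i k = 1 / 2 := fun i k hk => by simp [hcen, hk]
  refine ⟨Fin.cons (IsometryEquiv.addRight (-(e • one)))
    fun i => (IsometryEquiv.addRight (-((1 / 2 : ℝ) • one))).trans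
      ((φ i).symm.trans (IsometryEquiv.addRight (cen i))),
    {x | ∀ i, -e < x i ∧ x i < 1 + e}, ?_, ?_, ?_⟩
  · have : {x : EuclideanSpace ℝ (Fin d) | ∀ i, -e < x i ∧ x i < 1 + e} =
        ⋂ i, {x | -e < x i ∧ x i < 1 + e} := by ext x; simp
    rw [this]
    apply isOpen_iInter_of_finite
    intro i
    apply IsOpen.and
    · exact isOpen_lt continuous_const (by fun_prop)
    · exact isOpen_lt (by fun_prop) continuous_const
  · intro x hx i
    have := hx i
    constructor <;> linarith [this.1, this.2]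
  · intro x hx
    rw [Set.mem_iUnion]
    by_cases hall : ∀ i, x i ≤ 1 - e
    · refine ⟨0, x + e • one, ?_, ?_⟩
      · intro i
        have h1 := hx i
        have h2 := hall i
        simp only [PiLp.add_apply, PiLp.smul_apply, hone', smul_eq_mul, mul_one]
        constructor <;> linarith [h1.1]
      · simp
    · push Not at hall
      obtain ⟨i, hi⟩ := hall
      refine ⟨i.succ, φ i (x - cen i) + (1 / 2 : ℝ) • one, ?_, ?_⟩
      · have hei := he1 i
        have h4 : min ((s i - 1) / 2) (δ i / 2) ≤ (s i - 1) / 2 := min_le_left _ _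
        have h5 : min ((s i - 1) / 2) (δ i / 2) ≤ δ i / 2 := min_le_right _ _
        have h6 := hφ i (x - cen i) ?_ ?_ ?_
        · intro k
          have := abs_le.mp (h6 k)
          simp only [PiLp.add_apply, PiLp.smul_apply, hone', smul_eq_mul, mul_one]
          constructor <;> linarith [this.1, this.2]
        · intro k hk
          rw [mem_erase] at hk
          have h1 := hx k
          rw [PiLp.sub_apply, hcen2 i k hk.1, abs_le]
          constructor <;> linarith [h1.1, h1.2]
        · intro k hk hki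
          exact absurd (mem_erase.mpr ⟨hki, mem_univ k⟩) hk
        · have h1 := hx i
          rw [PiLp.sub_apply, hcen1, abs_le]
          constructor <;> linarith [h1.1, h1.2]
      · simp [Fin.cons_succ]

end Pool.Agent.Newton
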