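import Pool.Agent.Lib_helper88.Newton.Ineq
import Pool.Agent.Lib_helper88.Newton.Upper

/-!
Lower bound: two congruent copies never suffice in dimension at least two.
-/

set_option autoImplicit false

namespace Pool.Agent.Newton

open Finset

theorem isClosed_cube (d : ℕ) : IsClosed (cube d) := by
  have : cube d = ⋂ i, {x : EuclideanSpace ℝ (Fin d) | 0 ≤ x i ∧ x i ≤ 1} := by
    ext x; simp [cube]
  rw [this]
  apply isClosed_iInter
  intro i
  have hc : Continuous fun x : EuclideanSpace ℝ (Fin d) => x i := by fun_prop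
  exact (isClosed_le continuous_const hc).inter (isClosed_le hc continuous_const)

theorem isCompact_cube (d : ℕ) : IsCompact (cube d) := by
  apply Metric.isCompact_of_isClosed_isBounded (isClosed_cube d)
  rw [isBounded_iff_forall_norm_le]
  refine ⟨√d, fun x hx => ?_⟩
  rw [EuclideanSpace.norm_eq]
  apply Real.sqrt_le_sqrt
  calc ∑ i, ‖x i‖ ^ 2 ≤ ∑ _i : Fin d, (1 : ℝ) := by
        apply sum_le_sum
        intro i _
        have := hx i
        rw [Real.norm_eq_abs, sq_abs]
        nlinarith
    _ = d := by simp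

/-- a neighbourhood of the cube contains a larger cube -/
theorem exists_big {d : ℕ} {U : Set (EuclideanSpace ℝ (Fin d))} (hU : IsOpen U)
    (hc : cube d ⊆ U) : ∃ e : ℝ, 0 < e ∧ ∀ x : EuclideanSpace ℝ (Fin d),
      (∀ i, -e ≤ x i ∧ x i ≤ 1 + e) → x ∈ U := by
  obtain ⟨δ, hδ, h⟩ := (isCompact_cube d).exists_thickening_subset_open hU hc
  refine ⟨δ / (d + 1), by positivity, fun x hx => h ?_⟩
  rw [Metric.mem_thickening_iff]
  set e := δ / (d + 1) with he
  have he0 : 0 < e := by positivity
  refine ⟨WithLp.toLp 2 fun i => max 0 (min 1 (x i)), ?_, ?_⟩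
  · intro i
    constructor
    · exact le_max_left _ _
    · exact max_le zero_le_one (min_le_left _ _)
  · rw [EuclideanSpace.dist_eq]
    have h1 : ∑ i, dist (x i) ((WithLp.toLp 2 fun i => max 0 (min 1 (x i)) :
        EuclideanSpace ℝ (Fin d)) i) ^ 2 ≤ (d * e) ^ 2 := by
      calc _ ≤ ∑ _i : Fin d, e ^ 2 := by
            apply sum_le_sum
            intro i _
            rw [Real.dist_eq]
            apply pow_le_pow_left₀ (abs_nonneg _)
            simp only []
            have := hx i
            rw [abs_le]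
            constructor
            · have : max 0 (min 1 (x i)) ≤ x i + e := by
                apply max_le
                · linarith
                · exact (min_le_right _ _).trans (by linarith)
              linarith
            · have : x i - e ≤ max 0 (min 1 (x i)) := by
                rcases le_total 1 (x i) with h | h
                · rw [min_eq_left h]
                  exact le_max_of_le_right (by linarith)
                · rw [min_eq_right h]
                  exact le_max_of_le_right (by linarith)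
              linarith
        _ = d * e ^ 2 := by simp
        _ ≤ (d * e) ^ 2 := by
            rw [mul_pow]
            apply mul_le_mul_of_nonneg_right _ (sq_nonneg _)
            rcases Nat.eq_zero_or_pos d with h | h
            · simp [h]
            · have : (1 : ℝ) ≤ d := by exact_mod_cast h
              nlinarith
    calc √_ ≤ √((d * e) ^ 2) := Real.sqrt_le_sqrt h1
      _ = d * e := Real.sqrt_sq (by positivity)
      _ < δ := by
          rw [he, mul_div_assoc', div_lt_iff₀ (by positivity)]
          nlinarith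

/-- the vertices of the enlarged cube -/
noncomputable def vert {d : ℕ} (e : ℝ) (S : Finset (Fin d)) : EuclideanSpace ℝ (Fin d) :=
  WithLp.toLp 2 fun k => if k ∈ S then 1 + e else -e

theorem vert_apply {d : ℕ} (e : ℝ) (S : Finset (Fin d)) (k : Fin d) :
    vert e S k = if k ∈ S then 1 + e else -e := rfl

/-- the linear part of the inverse of an isometry -/
noncomputable def lin {d : ℕ} (g : EuclideanSpace ℝ (Fin d) ≃ᵢ EuclideanSpace ℝ (Fin d)) :
    EuclideanSpace ℝ (Fin d) ≃ₗᵢ[ℝ] EuclideanSpace ℝ (Fin d) :=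
  g.symm.toRealAffineIsometryEquiv.linearIsometryEquiv

theorem lin_sub {d : ℕ} (g : EuclideanSpace ℝ (Fin d) ≃ᵢ EuclideanSpace ℝ (Fin d))
    (x y : EuclideanSpace ℝ (Fin d)) : lin g (x - y) = g.symm x - g.symm y := by
  have := g.symm.toRealAffineIsometryEquiv.map_vsub x y
  simpa [lin] using this

/-- coordinates of differences of points of a copy -/
theorem abs_lin_le {d : ℕ} {g : EuclideanSpace ℝ (Fin d) ≃ᵢ EuclideanSpace ℝ (Fin d)}
    {x y : EuclideanSpace ℝ (Fin d)} (hx : x ∈ g '' cube d) (hy : y ∈ g '' cube d) (k : Fin d) :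
    |lin g (x - y) k| ≤ 1 := by
  obtain ⟨a, ha, rfl⟩ := hx
  obtain ⟨b, hb, rfl⟩ := hy
  rw [lin_sub, IsometryEquiv.symm_apply_apply, IsometryEquiv.symm_apply_apply, PiLp.sub_apply,
    abs_le]
  have h1 := ha k
  have h2 := hb k
  constructor <;> linarith [h1.1, h1.2, h2.1, h2.2]

theorem sum_lin_sq {d : ℕ} (g : EuclideanSpace ℝ (Fin d) ≃ᵢ EuclideanSpace ℝ (Fin d))
    (x : EuclideanSpace ℝ (Fin d)) : ∑ k, lin g x k ^ 2 = ∑ k, x k ^ 2 := by
  have h1 := (lin g).norm_map x
  rw [EuclideanSpace.norm_eq, EuclideanSpace.norm_eq, Real.sqrt_inj (by positivity) (by positivity)]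
    at h1
  simpa using h1

theorem sum_lin_mul {d : ℕ} (g : EuclideanSpace ℝ (Fin d) ≃ᵢ EuclideanSpace ℝ (Fin d))
    (x y : EuclideanSpace ℝ (Fin d)) : ∑ k, lin g x k * lin g y k = ∑ k, x k * y k := by
  have h1 := (lin g).inner_map_map y x
  rw [PiLp.inner_apply, PiLp.inner_apply] at h1
  exact h1

/-- no copy contains two opposite vertices of the enlarged cube -/
theorem not_antipodal {d : ℕ} (hd : 1 ≤ d) {e : ℝ} (he : 0 < e)
    {g : EuclideanSpace ℝ (Fin d) ≃ᵢ EuclideanSpace ℝ (Fin d)} (S : Finset (Fin d))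
    (h1 : vert e S ∈ g '' cube d) (h2 : vert e Sᶜ ∈ g '' cube d) : False := by
  have h3 : ∑ k, lin g (vert e S - vert e Sᶜ) k ^ 2 ≤ d := by
    calc _ ≤ ∑ _k : Fin d, (1 : ℝ) := by
          apply sum_le_sum
          intro k _
          have := abs_le.mp (abs_lin_le h1 h2 k)
          nlinarith
      _ = d := by simp
  rw [sum_lin_sq] at h3
  have h4 : ∑ k, (vert e S - vert e Sᶜ) k ^ 2 = d * (1 + 2 * e) ^ 2 := by
    calc _ = ∑ _k : Fin d, (1 + 2 * e) ^ 2 := by
          apply sum_congr rfl
          intro k _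
          rw [PiLp.sub_apply, vert_apply, vert_apply]
          by_cases hk : k ∈ S
          · rw [if_pos hk, if_neg (by simpa using hk)]; ring
          · rw [if_neg hk, if_pos (by simpa using hk)]; ring
      _ = _ := by simp
  rw [h4] at h3
  have h5 : (1 : ℝ) ≤ d := by exact_mod_cast hd
  have h6 : (d : ℝ) * (1 + 2 * e) ^ 2 = d + d * (4 * e + 4 * e ^ 2) := by ring
  have h7 : 0 < (d : ℝ) * (4 * e + 4 * e ^ 2) := by positivity
  linarith

/-- the direction of an edge -/
noncomputable def dir {d : ℕ} (i : Fin d) : EuclideanSpace ℝ (Fin d) :=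
  WithLp.toLp 2 fun k => if k = i then 1 else 0

theorem dir_apply {d : ℕ} (i k : Fin d) : dir i k = if k = i then 1 else 0 := rfl

/-- a common point on an edge running from one closed set to another -/
theorem exists_common {d : ℕ} {A B : Set (EuclideanSpace ℝ (Fin d))} (hA : IsClosed A)
    (hB : IsClosed B) (p v : EuclideanSpace ℝ (Fin d)) {s : ℝ} (hs : 0 ≤ s)
    (hcov : ∀ t, 0 ≤ t → t ≤ s → p + t • v ∈ A ∪ B) (h0 : p ∈ A) (h1 : p + s • v ∈ B) :
    ∃ t, 0 ≤ t ∧ t ≤ s ∧ p + t • v ∈ A ∧ p + t • v ∈ B := by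
  have hpre : IsPreconnected (Set.Icc (0 : ℝ) s) := isPreconnected_Icc
  rw [isPreconnected_closed_iff] at hpre
  have hcont : Continuous fun t : ℝ => p + t • v := by fun_prop
  obtain ⟨t, ht, ht1, ht2⟩ := hpre _ _ (hA.preimage hcont) (hB.preimage hcont)
    (fun t ht => hcov t ht.1 ht.2) ⟨0, ⟨le_rfl, hs⟩, by simpa using h0⟩ ⟨s, ⟨hs, le_rfl⟩, h1⟩
  exact ⟨t, ht.1, ht.2, ht1, ht2⟩

/-- the contradiction for an edge direction along which the vertices change copy -/
theorem noSwitch {d : ℕ} (hd : 2 ≤ d) {e : ℝ} (he : 0 < e)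
    {g h : EuclideanSpace ℝ (Fin d) ≃ᵢ EuclideanSpace ℝ (Fin d)}
    (hcov : ∀ x : EuclideanSpace ℝ (Fin d), (∀ i, -e ≤ x i ∧ x i ≤ 1 + e) →
      x ∈ g '' cube d ∪ h '' cube d)
    {S : Finset (Fin d)} {i : Fin d} (hi : i ∉ S) (h1 : vert e S ∈ g '' cube d)
    (h2 : vert e (insert i S) ∈ h '' cube d) : False := by
  have hvert : ∀ T : Finset (Fin d), vert e T ∈ g '' cube d ∪ h '' cube d := by
    intro T
    apply hcov
    intro k
    rw [vert_apply]
    split_ifs <;> constructor <;> linarith
  have hd1 : 1 ≤ d := by omega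
  -- the opposite edge
  have h3 : vert e (insert i S)ᶜ ∈ g '' cube d := by
    rcases hvert (insert i S)ᶜ with h | h
    · exact h
    · exact (not_antipodal hd1 he _ h2 h).elim
  have h4 : vert e Sᶜ ∈ h '' cube d := by
    rcases hvert Sᶜ with h | h
    · exact (not_antipodal hd1 he _ h1 h).elim
    · exact h
  set s := 1 + 2 * e with hs
  have hs1 : 1 < s := by linarith
  have e1 : vert e S + s • dir i = vert e (insert i S) := by
    ext k
    rw [PiLp.add_apply, PiLp.smul_apply, dir_apply, vert_apply, vert_apply]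
    by_cases hk : k = i
    · subst hk
      rw [if_neg hi, if_pos rfl, if_pos (mem_insert_self _ _), smul_eq_mul]; ring
    · simp [hk]
  have e2 : vert e (insert i S)ᶜ + s • dir i = vert e Sᶜ := by
    ext k
    rw [PiLp.add_apply, PiLp.smul_apply, dir_apply, vert_apply, vert_apply]
    by_cases hk : k = i
    · subst hk
      rw [if_neg (by simp), if_pos rfl, if_pos (by simpa using hi), smul_eq_mul]; ring
    · simp [hk]
  have hcl : ∀ g : EuclideanSpace ℝ (Fin d) ≃ᵢ EuclideanSpace ℝ (Fin d),
      IsClosed (g '' cube d) := fun g => g.toHomeomorph.isClosedMap _ (isClosed_cube d)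
  have hedge : ∀ T : Finset (Fin d), i ∉ T → ∀ t, 0 ≤ t → t ≤ s →
      vert e T + t • dir i ∈ g '' cube d ∪ h '' cube d := by
    intro T hT t ht0 hts
    apply hcov
    intro k
    rw [PiLp.add_apply, PiLp.smul_apply, dir_apply, vert_apply, smul_eq_mul]
    by_cases hk : k = i
    · subst hk
      rw [if_neg hT, if_pos rfl]
      constructor <;> linarith
    · rw [if_neg hk]
      split_ifs <;> constructor <;> linarith
  obtain ⟨t, ht0, hts, ht1, ht2⟩ := exists_common (hcl g) (hcl h) (vert e S) (dir i)
    (by linarith) (hedge S hi) h1 (by rw [e1]; exact h2)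
  obtain ⟨u, hu0, hus, hu1, hu2⟩ := exists_common (hcl g) (hcl h) (vert e (insert i S)ᶜ) (dir i)
    (by linarith) (hedge _ (by simp)) h3 (by rw [e2]; exact h4)
  -- the differences
  set w := vert e (insert i S)ᶜ - vert e S with hw
  have hwk : ∀ k, w k = if k = i then 0 else if k ∈ S then -s else s := by
    intro k
    rw [hw, PiLp.sub_apply, vert_apply, vert_apply]
    by_cases hk : k = i
    · subst hk
      rw [if_neg (by simp), if_neg hi, if_pos rfl]; ring
    · rw [if_neg hk]
      by_cases hkS : k ∈ S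
      · rw [if_neg (by simp [hkS]), if_pos hkS, if_pos hkS]; ring
      · rw [if_pos (by simp [hk, hkS]), if_neg hkS, if_neg hkS]; ring
  have hw2 : ∑ k, w k ^ 2 = (d - 1) * s ^ 2 := by
    have hk : ∀ k, w k ^ 2 = s ^ 2 - if k = i then s ^ 2 else 0 := by
      intro k
      rw [hwk]
      split_ifs <;> ring
    simp_rw [hk]
    rw [sum_sub_distrib]
    simp
    ring
  have hz2 : ∑ k, (dir i : EuclideanSpace ℝ (Fin d)) k ^ 2 = 1 := by
    simp [dir_apply]
  have hwz : ∑ k, w k * (dir i : EuclideanSpace ℝ (Fin d)) k = 0 := by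
    apply sum_eq_zero
    intro k _
    rw [hwk, dir_apply]
    split_ifs <;> simp
  have f1 : t + u + t * u < 1 := by
    apply twoSided hd (fun k => lin g w k) (fun k => lin g (dir i) k) s t u hs1 ht0 hu0
      (by rw [sum_lin_sq, hw2]) (by rw [sum_lin_sq, hz2]) (by rw [sum_lin_mul, hwz])
    · intro k
      exact abs_lin_le h3 h1 k
    · intro k
      have h5 := abs_lin_le hu1 h1 k
      have h6 : vert e (insert i S)ᶜ + u • dir i - vert e S = w + u • dir i := by rw [hw]; abel
      rw [h6, map_add, map_smul, PiLp.add_apply, PiLp.smul_apply, smul_eq_mul] at h5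
      exact h5
    · intro k
      have h5 := abs_lin_le h3 ht1 k
      have h6 : vert e (insert i S)ᶜ - (vert e S + t • dir i) = w - t • dir i := by rw [hw]; abel
      rw [h6, map_sub, map_smul, PiLp.sub_apply, PiLp.smul_apply, smul_eq_mul] at h5
      exact h5
  have f2 : (s - u) + (s - t) + (s - u) * (s - t) < 1 := by
    apply twoSided hd (fun k => lin h w k) (fun k => lin h (dir i) k) s (s - u) (s - t) hs1
      (by linarith) (by linarith)
      (by rw [sum_lin_sq, hw2]) (by rw [sum_lin_sq, hz2]) (by rw [sum_lin_mul, hwz])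
    · intro k
      have h5 := abs_lin_le h4 h2 k
      rw [← e1, ← e2] at h5
      have h6 : vert e (insert i S)ᶜ + s • dir i - (vert e S + s • dir i) = w := by rw [hw]; abel
      rw [h6] at h5
      exact h5
    · intro k
      have h5 := abs_lin_le h4 ht2 k
      rw [← e2] at h5
      have h6 : vert e (insert i S)ᶜ + s • dir i - (vert e S + t • dir i) =
          w + (s - t) • dir i := by rw [hw, sub_smul]; abel
      rw [h6, map_add, map_smul, PiLp.add_apply, PiLp.smul_apply, smul_eq_mul] at h5
      exact h5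
    · intro k
      have h5 := abs_lin_le hu2 h2 k
      rw [← e1] at h5
      have h6 : vert e (insert i S)ᶜ + u • dir i - (vert e S + s • dir i) =
          w - (s - u) • dir i := by rw [hw, sub_smul]; abel
      rw [h6, map_sub, map_smul, PiLp.sub_apply, PiLp.smul_apply, smul_eq_mul] at h5
      exact h5
  have g1 : 0 ≤ t * u := mul_nonneg ht0 hu0
  have g2 : 0 ≤ (s - u) * (s - t) := mul_nonneg (by linarith) (by linarith)
  linarith

theorem not_covers_two {d : ℕ} (hd : 2 ≤ d) : ¬ Covers d 2 := by
  rintro ⟨g, U, hU, hc, hcov⟩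
  obtain ⟨e, he, hbig⟩ := exists_big hU hc
  have hcov' : ∀ x : EuclideanSpace ℝ (Fin d), (∀ i, -e ≤ x i ∧ x i ≤ 1 + e) →
      x ∈ g 0 '' cube d ∪ g 1 '' cube d := by
    intro x hx
    obtain ⟨j, hj⟩ := Set.mem_iUnion.mp (hcov (hbig x hx))
    fin_cases j
    · exact Or.inl hj
    · exact Or.inr hj
  have hcov'' : ∀ x : EuclideanSpace ℝ (Fin d), (∀ i, -e ≤ x i ∧ x i ≤ 1 + e) →
      x ∈ g 1 '' cube d ∪ g 0 '' cube d := fun x hx => (hcov' x hx).symm
  have hvert : ∀ T : Finset (Fin d), vert e T ∈ g 0 '' cube d ∪ g 1 '' cube d := by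
    intro T
    apply hcov'
    intro k
    rw [vert_apply]
    split_ifs <;> constructor <;> linarith
  have hd1 : 1 ≤ d := by omega
  have hall : ∀ S : Finset (Fin d), (vert e ∅ ∈ g 0 '' cube d ↔ vert e S ∈ g 0 '' cube d) := by
    intro S
    induction S using Finset.induction_on with
    | empty => rfl
    | insert i S hi ih =>
      rw [ih]
      constructor
      · intro h
        rcases hvert (insert i S) with h' | h'
        · exact h'
        · exact (noSwitch hd he hcov' hi h h').elim
      · intro h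
        rcases hvert S with h' | h'
        · exact h'
        · exact (noSwitch hd he hcov'' hi h' h).elim
  have h1 := hall univ
  have h2 : (∅ : Finset (Fin d))ᶜ = univ := compl_empty
  rcases hvert ∅ with h | h
  · have h3 := h1.mp h
    rw [← h2] at h3
    exact not_antipodal hd1 he _ h h3
  · rcases hvert univ with h3 | h3
    · have h4 := h1.mpr h3
      rw [← h2] at h3
      exact not_antipodal hd1 he _ h4 h3
    · rw [← h2] at h3
      exact not_antipodal hd1 he _ h h3

theorem not_covers_one {d : ℕ} (hd : 1 ≤ d) : ¬ Covers d 1 := by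
  rintro ⟨g, U, hU, hc, hcov⟩
  obtain ⟨e, he, hbig⟩ := exists_big hU hc
  have hvert : ∀ T : Finset (Fin d), vert e T ∈ g 0 '' cube d := by
    intro T
    have : vert e T ∈ U := by
      apply hbig
      intro k
      rw [vert_apply]
      split_ifs <;> constructor <;> linarith
    obtain ⟨j, hj⟩ := Set.mem_iUnion.mp (hcov this)
    rwa [Subsingleton.elim j 0] at hj
  exact not_antipodal hd he ∅ (hvert _) (hvert _)

theorem covers_mono {d m n : ℕ} (hmn : m ≤ n) (h : Covers d m) : Covers d n := by
  obtain ⟨g, U, hU, hc, hcov⟩ := h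
  refine ⟨fun j => if hj : (j : ℕ) < m then g ⟨j, hj⟩ else IsometryEquiv.refl _, U, hU, hc, ?_⟩
  intro x hx
  obtain ⟨j, hj⟩ := Set.mem_iUnion.mp (hcov hx)
  rw [Set.mem_iUnion]
  refine ⟨⟨j, j.2.trans_le hmn⟩, ?_⟩
  simp only [j.2, dif_pos]
  exact hj

end Pool.Agent.Newton
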